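import Pool.Agent.Helper34.ST.Basic

/-!
# Module COSTC: cost along a directed walk by levels
-/

set_option autoImplicit false

namespace Pool.Agent.Helper34.ST

open Finset

theorem st_COSTC : ST_COSTC := by
  intro σ a b lo j hab
  induction b, hab using Nat.le_induction with
  | base =>
    intro _
    refine ⟨fun _ => 0, by simp, fun f => by simp⟩
  | succ b hab ih =>
    intro hb
    obtain ⟨e, he1, he2⟩ := ih fun t h1 h2 => hb t h1 (by omega)
    have h0 := hb b hab (Nat.le_succ b)
    have h1 := hb (b + 1) (by omega) le_rfl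
    have key : ∃ i0 : ℕ, i0 < j ∧ ∀ f : ℤ → ℝ,
        f (lo + i0) + f (lo + i0 + 1) = f (ht σ b) + f (ht σ (b + 1)) := by
      rcases ht_succ_cases σ b with h | h
      · refine ⟨(ht σ b - lo).toNat, by omega, fun f => ?_⟩
        have e1 : lo + ((ht σ b - lo).toNat : ℤ) = ht σ b := by omega
        rw [e1, h]
      · refine ⟨(ht σ (b + 1) - lo).toNat, by omega, fun f => ?_⟩
        have e1 : lo + ((ht σ (b + 1) - lo).toNat : ℤ) = ht σ (b + 1) := by omega
        have e2 : ht σ (b + 1) + 1 = ht σ b := by omega
        rw [e1, e2, add_comm]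
    obtain ⟨i0, hi0, hkey⟩ := key
    refine ⟨fun i => e i + if i = i0 then 1 else 0, ?_, fun f => ?_⟩
    · rw [Finset.sum_add_distrib, he1, Finset.sum_ite_eq', if_pos (Finset.mem_range.2 hi0)]
      omega
    · have h2 : ∑ i ∈ range j, ((e i + if i = i0 then 1 else 0 : ℕ) : ℝ) *
          (f (lo + i) + f (lo + i + 1)) =
          ∑ i ∈ range j, (e i : ℝ) * (f (lo + i) + f (lo + i + 1)) +
            (f (lo + i0) + f (lo + i0 + 1)) := by
        have h3 : ∀ i ∈ range j, ((e i + if i = i0 then 1 else 0 : ℕ) : ℝ) *
            (f (lo + i) + f (lo + i + 1)) = (e i : ℝ) * (f (lo + i) + f (lo + i + 1)) +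
              (if i = i0 then (f (lo + i) + f (lo + i + 1)) else 0) := by
          intro i _
          by_cases hi : i = i0
          · rw [if_pos hi, if_pos hi]; push_cast; ring
          · rw [if_neg hi, if_neg hi]; push_cast; ring
        rw [Finset.sum_congr rfl h3, Finset.sum_add_distrib, Finset.sum_ite_eq',
          if_pos (Finset.mem_range.2 hi0)]
      rw [Finset.sum_Ico_succ_top hab, mul_add, he2 f, h2, hkey f]
      ring

end Pool.Agent.Helper34.ST
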